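import Pool.Agent.Helper46.RO.Base

/-!
# Undistorted characters

If an invariant character of a finitely generated normal subgroup has no lag, it cannot be large on
elements which are short in the ambient group; so it vanishes on the commutators `⁅x, w⁆` such that
all `⁅x ^ k, w ^ l⁆` are in the subgroup.
-/

namespace Pool.Agent.Helper49.RO

open Pool.Agent.Helper46.RO
open scoped commutatorElement

universe u

section dst

variable {L : Type u} [Group L] {X : Finset L} {χ : L → ℝ}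

/-- The map `φ` lowers levels of connectivity by at most `D`. -/
def Dst (X : Finset L) (χ : L → ℝ) (φ : L → L) (D : ℝ) : Prop :=
  ∀ t g h, Conn X (up χ t) g h → Conn X (up χ (t - D)) (φ g) (φ h)

theorem Dst.id : Dst X χ (fun g => g) 0 := by
  intro t g h hc
  rwa [sub_zero]

theorem Dst.comp {φ ψ : L → L} {D D' : ℝ} (h1 : Dst X χ φ D) (h2 : Dst X χ ψ D') :
    Dst X χ (fun g => φ (ψ g)) (D + D') := by
  intro t g h hc
  have h3 := h1 _ _ _ (h2 t g h hc)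
  have e : t - D' - D = t - (D + D') := by ring
  rwa [e] at h3

theorem Dst.congr {φ ψ : L → L} {D : ℝ} (h1 : Dst X χ φ D) (h2 : ∀ g, φ g = ψ g) :
    Dst X χ ψ D := by
  intro t g h hc
  rw [← h2, ← h2]
  exact h1 t g h hc

/-- An endomorphism preserving the character has bounded distortion. -/
theorem exists_dst (hX : SymGen X) (hχ : IsChar χ) (φ : L →* L) (hφ : ∀ g, χ (φ g) = χ g) :
    ∃ C : ℝ, 0 ≤ C ∧ Dst X χ (fun g => φ g) C := by
  classical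
  have h1 : ∀ x : L, ∃ s : ℝ, Conn X (up χ s) 1 (φ x) := fun x => by
    obtain ⟨s, _, _, h⟩ := exists_level hX χ 1 (φ x)
    exact ⟨s, h⟩
  choose s hs using h1
  obtain ⟨C, hC⟩ := (X.image (fun x => -s x)).bddAbove
  refine ⟨max C 0, le_max_right _ _, ?_⟩
  intro t g h hc
  induction hc with
  | refl => exact Conn.refl _
  | @tail b c _ hbc ih =>
    refine ih.trans ?_
    obtain ⟨hb, hc, hx⟩ := hbc
    have e : φ c = φ b * φ (b⁻¹ * c) := by rw [← map_mul, mul_inv_cancel_left]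
    have h2 := (hs (b⁻¹ * c)).up_translate hχ (φ b)
    rw [mul_one, ← e] at h2
    refine h2.mono ?_
    intro k hk
    have h3 : s (b⁻¹ * c) + χ (φ b) ≤ χ k := hk
    have h4 : t ≤ χ b := hb
    have h5 : -s (b⁻¹ * c) ≤ C :=
      hC (by rw [Finset.mem_coe, Finset.mem_image]; exact ⟨_, hx, rfl⟩)
    have h6 : C ≤ max C 0 := le_max_left _ _
    rw [hφ] at h3
    change t - max C 0 ≤ χ k
    linarith

/-- If conjugation by `b⁻¹` lowers levels by less than the character of `b`, there is a lag. -/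
theorem lag_of_dst (hX : SymGen X) (hχ : IsChar χ) (b : L) (D : ℝ) (hD : D < χ b)
    (hd : Dst X χ (fun g => b⁻¹ * g * b) D) : Lag X χ := by
  obtain ⟨s₀, _, _, hb⟩ := exists_level hX χ 1 b
  refine ⟨χ b - D - s₀, ?_⟩
  intro s g hg h hh
  by_contra hcon
  have hbd : ∀ t, Conn X (up χ t) g h → t ≤ s - (χ b - D - s₀) := by
    intro t ht
    by_contra hlt
    apply hcon
    refine ht.mono ?_
    intro k hk
    have h1 : t ≤ χ k := hk
    change s - (χ b - D - s₀) ≤ χ k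
    linarith [not_le.1 hlt]
  obtain ⟨t0, _, _, ht0⟩ := exists_level hX χ g h
  have hne : {t | Conn X (up χ t) g h}.Nonempty := ⟨t0, ht0⟩
  have hba : BddAbove {t | Conn X (up χ t) g h} := ⟨_, fun t ht => hbd t ht⟩
  have hpos : 0 < χ b - D := by linarith
  obtain ⟨t, ht, hlt⟩ := exists_lt_of_lt_csSup hne
    (show sSup {t | Conn X (up χ t) g h} - (χ b - D) / 2 < sSup {t | Conn X (up χ t) g h} by
      linarith)
  have hts := hbd t ht
  have h1 : Conn X (up χ (t - D)) (b⁻¹ * g * b) (b⁻¹ * h * b) := hd t g h ht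
  have h2 := h1.up_translate hχ b
  have e1 : ∀ z : L, b * (b⁻¹ * z * b) = z * b := fun z => by group
  rw [e1, e1] at h2
  have h3 : ∀ z : L, s ≤ χ z → Conn X (up χ (t - D + χ b)) z (z * b) := by
    intro z hz
    have h4 := hb.up_translate hχ z
    rw [mul_one] at h4
    refine h4.mono ?_
    intro k hk
    have h5 : s₀ + χ z ≤ χ k := hk
    change t - D + χ b ≤ χ k
    linarith
  have h4 : Conn X (up χ (t - D + χ b)) g h :=
    ((h3 g hg).trans h2).trans ((h3 h hh).symm hX)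
  have h5 : t - D + χ b ≤ sSup {t | Conn X (up χ t) g h} := le_csSup hba h4
  linarith

end dst

section conj

variable {L : Type u} [Group L] (K : Subgroup L) [K.Normal] {X : Finset K} {χ : K → ℝ}

/-- Distortion of conjugation by an element of the ambient group. -/
def DL (X : Finset K) (χ : K → ℝ) (y : L) (D : ℝ) : Prop :=
  Dst X χ (fun g => MulAut.conjNormal y g) D

variable {K}

theorem DL.one : DL K X χ 1 0 :=
  Dst.congr Dst.id (fun g => by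
    rw [map_one]
    rfl)

theorem DL.mul {y z : L} {D E : ℝ} (h1 : DL K X χ y D) (h2 : DL K X χ z E) :
    DL K X χ (y * z) (D + E) :=
  Dst.congr (Dst.comp h1 h2) (fun g => by
    rw [map_mul]
    rfl)

theorem DL.pow {y : L} {D : ℝ} (h1 : DL K X χ y D) (k : ℕ) : DL K X χ (y ^ k) (k * D) := by
  induction k with
  | zero =>
    rw [pow_zero, Nat.cast_zero, zero_mul]
    exact DL.one
  | succ k ih =>
    have h2 := ih.mul h1
    rw [← pow_succ] at h2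
    have e : ((k + 1 : ℕ) : ℝ) * D = k * D + D := by push_cast; ring
    rw [e]
    exact h2

theorem exists_DL (hX : SymGen X) (hχ : IsChar χ)
    (hinv : ∀ (y : L) (g : K), χ (MulAut.conjNormal y g) = χ g) (y : L) :
    ∃ C : ℝ, 0 ≤ C ∧ DL K X χ y C :=
  exists_dst hX hχ (MulAut.conjNormal y : K ≃* K).toMonoidHom (fun g => hinv y g)

/-- The commutator value. -/
theorem val_mul_right (hχ : IsChar χ)
    (hinv : ∀ (y : L) (g : K), χ (MulAut.conjNormal y g) = χ g) (x w w' : L)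
    (h1 : ⁅x, w⁆ ∈ K) (h2 : ⁅x, w'⁆ ∈ K) (h3 : ⁅x, w * w'⁆ ∈ K) :
    χ ⟨⁅x, w * w'⁆, h3⟩ = χ ⟨⁅x, w⁆, h1⟩ + χ ⟨⁅x, w'⁆, h2⟩ := by
  have e : (⟨⁅x, w * w'⁆, h3⟩ : K) = ⟨⁅x, w⁆, h1⟩ * MulAut.conjNormal w ⟨⁅x, w'⁆, h2⟩ := by
    apply Subtype.ext
    rw [Subgroup.coe_mul, MulAut.conjNormal_apply]
    simp only [commutatorElement_def]
    group
  rw [e, hχ, hinv]

theorem val_mul_left (hχ : IsChar χ)
    (hinv : ∀ (y : L) (g : K), χ (MulAut.conjNormal y g) = χ g) (x x' w : L)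
    (h1 : ⁅x, w⁆ ∈ K) (h2 : ⁅x', w⁆ ∈ K) (h3 : ⁅x * x', w⁆ ∈ K) :
    χ ⟨⁅x * x', w⁆, h3⟩ = χ ⟨⁅x, w⁆, h1⟩ + χ ⟨⁅x', w⁆, h2⟩ := by
  have e : (⟨⁅x * x', w⁆, h3⟩ : K) = MulAut.conjNormal x ⟨⁅x', w⁆, h2⟩ * ⟨⁅x, w⁆, h1⟩ := by
    apply Subtype.ext
    rw [Subgroup.coe_mul, MulAut.conjNormal_apply]
    simp only [commutatorElement_def]
    group
  rw [e, hχ, hinv, add_comm]

theorem val_pow_right (hχ : IsChar χ)
    (hinv : ∀ (y : L) (g : K), χ (MulAut.conjNormal y g) = χ g) (x w : L)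
    (hK : ∀ l : ℕ, ⁅x, w ^ l⁆ ∈ K) (h1 : ⁅x, w⁆ ∈ K) (l : ℕ) :
    χ ⟨⁅x, w ^ l⁆, hK l⟩ = l * χ ⟨⁅x, w⁆, h1⟩ := by
  induction l with
  | zero =>
    have e : (⟨⁅x, w ^ 0⁆, hK 0⟩ : K) = 1 := by
      apply Subtype.ext
      change ⁅x, w ^ 0⁆ = 1
      rw [pow_zero, commutatorElement_one_right]
    rw [e, hχ.one, Nat.cast_zero, zero_mul]
  | succ l ih =>
    have h2 : ⁅x, w ^ l * w⁆ ∈ K := by rw [← pow_succ]; exact hK (l + 1)
    have e : (⟨⁅x, w ^ (l + 1)⁆, hK (l + 1)⟩ : K) = ⟨⁅x, w ^ l * w⁆, h2⟩ := by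
      apply Subtype.ext
      change ⁅x, w ^ (l + 1)⁆ = ⁅x, w ^ l * w⁆
      rw [pow_succ]
    rw [e, val_mul_right hχ hinv x (w ^ l) w (hK l) h1 h2, ih]
    push_cast
    ring

theorem val_pow_left (hχ : IsChar χ)
    (hinv : ∀ (y : L) (g : K), χ (MulAut.conjNormal y g) = χ g) (x w : L)
    (hK : ∀ l : ℕ, ⁅x ^ l, w⁆ ∈ K) (h1 : ⁅x, w⁆ ∈ K) (l : ℕ) :
    χ ⟨⁅x ^ l, w⁆, hK l⟩ = l * χ ⟨⁅x, w⁆, h1⟩ := by
  induction l with
  | zero =>
    have e : (⟨⁅x ^ 0, w⁆, hK 0⟩ : K) = 1 := by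
      apply Subtype.ext
      change ⁅x ^ 0, w⁆ = 1
      rw [pow_zero, commutatorElement_one_left]
    rw [e, hχ.one, Nat.cast_zero, zero_mul]
  | succ l ih =>
    have h2 : ⁅x ^ l * x, w⁆ ∈ K := by rw [← pow_succ]; exact hK (l + 1)
    have e : (⟨⁅x ^ (l + 1), w⁆, hK (l + 1)⟩ : K) = ⟨⁅x ^ l * x, w⁆, h2⟩ := by
      apply Subtype.ext
      change ⁅x ^ (l + 1), w⁆ = ⁅x ^ l * x, w⁆
      rw [pow_succ]
    rw [e, val_mul_left hχ hinv (x ^ l) x w (hK l) h1 h2, ih]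
    push_cast
    ring

/-- A character which does not vanish on a quadratically distorted commutator has a lag. -/
theorem lag_of_commutator (hX : SymGen X) (hχ : IsChar χ)
    (hinv : ∀ (y : L) (g : K), χ (MulAut.conjNormal y g) = χ g) (x w : L)
    (hK : ∀ k l : ℕ, ⁅x ^ k, w ^ l⁆ ∈ K) (h1 : ⁅x, w⁆ ∈ K) (hne : χ ⟨⁅x, w⁆, h1⟩ ≠ 0) :
    Lag X χ := by
  obtain ⟨C1, hC1, hx⟩ := exists_DL hX hχ hinv x
  obtain ⟨C2, hC2, hw⟩ := exists_DL hX hχ hinv w
  obtain ⟨C3, hC3, hx'⟩ := exists_DL hX hχ hinv x⁻¹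
  obtain ⟨C4, hC4, hw'⟩ := exists_DL hX hχ hinv w⁻¹
  have hval : ∀ k : ℕ, χ ⟨⁅x ^ k, w ^ k⁆, hK k k⟩ = (k : ℝ) * (k * χ ⟨⁅x, w⁆, h1⟩) := by
    intro k
    have hkw : ∀ l : ℕ, ⁅x, w ^ l⁆ ∈ K := fun l => by
      have := hK 1 l
      rwa [pow_one] at this
    rw [val_pow_left hχ hinv x (w ^ k) (fun l => hK l k) (hkw k) k,
      val_pow_right hχ hinv x w hkw h1 k]
  have habs : 0 < |χ ⟨⁅x, w⁆, h1⟩| := abs_pos.2 hne
  obtain ⟨k, hk⟩ := exists_nat_gt ((C1 + C2 + C3 + C4) / |χ ⟨⁅x, w⁆, h1⟩|)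
  have hk0 : (0 : ℝ) < k := lt_of_le_of_lt (by positivity) hk
  have hk1 : C1 + C2 + C3 + C4 < k * |χ ⟨⁅x, w⁆, h1⟩| := by
    rwa [div_lt_iff₀ habs] at hk
  have hk2 : (k : ℝ) * (C1 + C2 + C3 + C4) < k * (k * |χ ⟨⁅x, w⁆, h1⟩|) :=
    mul_lt_mul_of_pos_left hk1 hk0
  have hD1 : DL K X χ ⁅x ^ k, w ^ k⁆ (k * (C1 + C2 + C3 + C4)) := by
    have h := ((((hx.pow k).mul (hw.pow k)).mul (hx'.pow k)).mul (hw'.pow k))
    have e1 : x ^ k * w ^ k * x⁻¹ ^ k * w⁻¹ ^ k = ⁅x ^ k, w ^ k⁆ := by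
      rw [commutatorElement_def, inv_pow, inv_pow]
    have e2 : (k : ℝ) * C1 + k * C2 + k * C3 + k * C4 = k * (C1 + C2 + C3 + C4) := by ring
    rwa [e1, e2] at h
  have hD2 : DL K X χ (⁅x ^ k, w ^ k⁆)⁻¹ (k * (C1 + C2 + C3 + C4)) := by
    have h := ((((hw.pow k).mul (hx.pow k)).mul (hw'.pow k)).mul (hx'.pow k))
    have e1 : w ^ k * x ^ k * w⁻¹ ^ k * x⁻¹ ^ k = (⁅x ^ k, w ^ k⁆)⁻¹ := by
      rw [commutatorElement_inv, commutatorElement_def, inv_pow, inv_pow]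
    have e2 : (k : ℝ) * C2 + k * C1 + k * C4 + k * C3 = k * (C1 + C2 + C3 + C4) := by ring
    rwa [e1, e2] at h
  rcases lt_or_gt_of_ne hne with hneg | hpos
  · -- negative value: use the inverse of the commutator
    refine lag_of_dst hX hχ (⟨⁅x ^ k, w ^ k⁆, hK k k⟩ : K)⁻¹ (k * (C1 + C2 + C3 + C4)) ?_ ?_
    · rw [hχ.inv, hval]
      rw [abs_of_neg hneg] at hk2
      linarith
    · refine Dst.congr hD1 ?_
      intro g
      apply Subtype.ext
      rw [MulAut.conjNormal_apply]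
      simp only [Subgroup.coe_mul, inv_inv, InvMemClass.coe_inv]
  · refine lag_of_dst hX hχ (⟨⁅x ^ k, w ^ k⁆, hK k k⟩ : K) (k * (C1 + C2 + C3 + C4)) ?_ ?_
    · rw [hval]
      rw [abs_of_pos hpos] at hk2
      linarith
    · refine Dst.congr hD2 ?_
      intro g
      apply Subtype.ext
      rw [MulAut.conjNormal_apply]
      simp only [Subgroup.coe_mul, inv_inv, InvMemClass.coe_inv]

end conj

end Pool.Agent.Helper49.RO
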