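import Pool.Agent.Helper49.RO.B1
import Pool.Agent.Helper29.RO.A2
import Pool.Agent.Helper9.RO.E7
import Pool.Agent.Helper47.RO.P1
import Pool.Agent.Helper1.RO.P2
import Pool.Agent.Helper75.RO.P3
import Pool.Agent.Helper62.RO.A1

/-!
# Kernels of nilpotent quotients

`L ⧸ N` nilpotent, `N ⊔ commutator L` finitely generated imply `N` finitely generated.
-/

namespace Pool.Agent.Helper49.RO

open Pool.Agent.Helper46.RO
open scoped commutatorElement

universe u

/-- The Bieri-Neumann-Strebel criterion: if `N` contains the derived subgroup and is not finitely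
generated, there is a character without lag which vanishes on `N`. -/
theorem exists_not_lag (L : Type u) [Group L] [Group.FG L] (N : Subgroup L) [N.Normal]
    (hN : commutator L ≤ N) (hnfg : ¬ N.FG) :
    ∃ (X : Finset L) (χ : L → ℝ), SymGen X ∧ IsChar χ ∧ (∀ g ∈ N, χ g = 0) ∧ (∃ g, χ g ≠ 0) ∧
      ¬ Lag X χ := by
  obtain ⟨n, π, hπ, hsurj, hle, hfg⟩ := Pool.Agent.Helper62.RO.A1 L N hN
  obtain ⟨X, hX⟩ := Pool.Agent.Helper29.RO.exists_symGen L
  have hk : ¬ (kerZ π hπ).FG := fun h => hnfg (hfg h)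
  have hU : ¬ Unif X π := fun h => hk (Pool.Agent.Helper75.RO.P3 L X n π hπ hX
    (Pool.Agent.Helper1.RO.P2 L X n π hX hπ h))
  have hw : ∃ w : Fin n → ℝ, w ≠ 0 ∧ ¬ Margin X (chr π w) := by
    by_contra h
    apply hU
    apply Pool.Agent.Helper47.RO.P1 L X n π hX hπ
    intro w hw0
    by_contra hm
    exact h ⟨w, hw0, hm⟩
  obtain ⟨w, hw0, hmargin⟩ := hw
  have hχ : IsChar (chr π w) := Pool.Agent.Helper29.RO.isChar_chr hπ w
  have hN0 : ∀ g ∈ N, chr π w g = 0 := by
    intro g hg
    have h0 : π g = 0 := hle hg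
    unfold chr
    rw [h0]
    simp
  have hne : ∃ g, chr π w g ≠ 0 := by
    obtain ⟨i, hi⟩ := Function.ne_iff.1 hw0
    obtain ⟨g, hg⟩ := hsurj (Pi.single i 1)
    refine ⟨g, ?_⟩
    have : chr π w g = w i := by
      unfold chr
      rw [hg, Finset.sum_eq_single i]
      · simp
      · intro j _ hj
        rw [Pi.single_eq_of_ne hj]
        simp
      · intro h; exact absurd (Finset.mem_univ i) h
    rw [this]
    exact hi
  exact ⟨X, chr π w, hX, hχ, hN0, hne,
    fun h => hmargin (Pool.Agent.Helper9.RO.E7 L X (chr π w) hX hχ hne h)⟩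

/-- The kernel of a character. -/
def kerChar {L : Type u} [Group L] (χ : L → ℝ) (hχ : IsChar χ) : Subgroup L where
  carrier := {g | χ g = 0}
  one_mem' := hχ.one
  mul_mem' := by
    intro a b ha hb
    change χ (a * b) = 0
    have ha' : χ a = 0 := ha
    have hb' : χ b = 0 := hb
    rw [hχ, ha', hb', add_zero]
  inv_mem' := by
    intro a ha
    change χ a⁻¹ = 0
    have ha' : χ a = 0 := ha
    rw [hχ.inv, ha', neg_zero]

/-- One step of the lower central series. -/
theorem fg_step (L : Type u) [Group L] (A K K' : Subgroup L) [A.Normal] [K.Normal] [K'.Normal]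
    (hle : K' ≤ K) (hgen : K ≤ K' ⊔ ⁅A, (⊤ : Subgroup L)⁆) (hA : ⁅A, (⊤ : Subgroup L)⁆ ≤ K)
    (hcen : ∀ g ∈ K, ∀ y : L, ⁅y, g⁆ ∈ K') (hK : K.FG) : K'.FG := by
  by_contra hnfg
  have hKFG : Group.FG K := (Group.fg_iff_subgroup_fg K).2 hK
  have hcomm : commutator K ≤ K'.subgroupOf K := by
    rw [commutator_def, Subgroup.commutator_le]
    intro g _ h _
    rw [Subgroup.mem_subgroupOf]
    exact hcen (h : L) h.2 (g : L)
  have hnfg' : ¬ (K'.subgroupOf K).FG := by
    intro h
    apply hnfg
    have h2 : Group.FG (K'.subgroupOf K) := (Group.fg_iff_subgroup_fg _).2 h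
    have h3 : Group.FG K' :=
      Group.fg_of_surjective (f := (Subgroup.subgroupOfEquivOfLe hle).toMonoidHom)
        (Subgroup.subgroupOfEquivOfLe hle).surjective
    exact (Group.fg_iff_subgroup_fg _).1 h3
  obtain ⟨X, χ, hX, hχ, hN0, hne, hlag⟩ := exists_not_lag K (K'.subgroupOf K) hcomm hnfg'
  have hinv : ∀ (y : L) (g : K), χ (MulAut.conjNormal y g) = χ g := by
    intro y g
    have h1 : MulAut.conjNormal y g * g⁻¹ ∈ K'.subgroupOf K := by
      rw [Subgroup.mem_subgroupOf, Subgroup.coe_mul, MulAut.conjNormal_apply]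
      have h2 := hcen g g.2 y
      rw [commutatorElement_def] at h2
      exact h2
    have h3 := hN0 _ h1
    rw [hχ, hχ.inv] at h3
    linarith
  have hex : ∃ p ∈ A, ∃ q : L, ∃ h : ⁅p, q⁆ ∈ K, χ ⟨⁅p, q⁆, h⟩ ≠ 0 := by
    by_contra hno
    obtain ⟨g, hg⟩ := hne
    apply hg
    have h1 : K' ⊔ ⁅A, (⊤ : Subgroup L)⁆ ≤ (kerChar χ hχ).map K.subtype := by
      apply sup_le
      · intro z hz
        exact ⟨⟨z, hle hz⟩, hN0 _ (Subgroup.mem_subgroupOf.2 hz), rfl⟩
      · rw [Subgroup.commutator_le]
        intro p hp q _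
        have hpq : ⁅p, q⁆ ∈ K := hA (Subgroup.commutator_mem_commutator hp (Subgroup.mem_top q))
        refine ⟨⟨⁅p, q⁆, hpq⟩, ?_, rfl⟩
        by_contra hz
        exact hno ⟨p, hp, q, hpq, hz⟩
    obtain ⟨z, hz, hzg⟩ := h1 (hgen g.2)
    have e : z = g := Subtype.ext hzg
    rw [← e]
    exact hz
  obtain ⟨p, hp, q, hpq, hval⟩ := hex
  apply hlag
  refine lag_of_commutator hX hχ hinv p q ?_ hpq hval
  intro k l
  exact hA (Subgroup.commutator_mem_commutator (pow_mem hp k) (Subgroup.mem_top _))

/-- Lemma B: if `L ⧸ N` is nilpotent and `N [L, L]` is finitely generated, then `N` is finitely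
generated. -/
theorem fg_of_nilpotent_quotient (L : Type u) [Group L] (N : Subgroup L) [N.Normal]
    (c : ℕ) (hc : (⊤ : Subgroup L).lowerCentralSeries c ≤ N)
    (hfg : (N ⊔ commutator L).FG) : N.FG := by
  have key : ∀ i : ℕ, (N ⊔ (⊤ : Subgroup L).lowerCentralSeries (i + 1)).FG := by
    intro i
    induction i with
    | zero => exact hfg
    | succ i ih =>
      refine fg_step L ((⊤ : Subgroup L).lowerCentralSeries i)
        (N ⊔ (⊤ : Subgroup L).lowerCentralSeries (i + 1))
        (N ⊔ (⊤ : Subgroup L).lowerCentralSeries (i + 1 + 1)) ?_ ?_ ?_ ?_ ih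
      · exact sup_le_sup_left (Subgroup.lowerCentralSeries_antitone _ (Nat.le_succ _)) N
      · exact sup_le (le_sup_of_le_left le_sup_left) le_sup_right
      · exact le_sup_right
      · intro g hg y
        have h1 : N ⊔ (⊤ : Subgroup L).lowerCentralSeries (i + 1) ≤
            (Subgroup.center (L ⧸ (N ⊔ (⊤ : Subgroup L).lowerCentralSeries (i + 1 + 1)))).comap
              (QuotientGroup.mk' _) := by
          apply sup_le
          · intro z hz
            rw [Subgroup.mem_comap]
            have : QuotientGroup.mk' (N ⊔ (⊤ : Subgroup L).lowerCentralSeries (i + 1 + 1)) z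
                = 1 := by
              rw [QuotientGroup.mk'_apply, QuotientGroup.eq_one_iff]
              exact (le_sup_left : N ≤ _) hz
            rw [this]
            exact one_mem _
          · intro z hz
            rw [Subgroup.mem_comap, Subgroup.mem_center_iff]
            intro w
            obtain ⟨w, rfl⟩ := QuotientGroup.mk'_surjective _ w
            rw [← map_mul, ← map_mul, QuotientGroup.mk'_apply, QuotientGroup.mk'_apply,
              QuotientGroup.eq]
            have h2 : ⁅z⁻¹, w⁻¹⁆ ∈ (⊤ : Subgroup L).lowerCentralSeries (i + 1 + 1) :=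
              Subgroup.commutator_mem_commutator (inv_mem hz) (Subgroup.mem_top _)
            have h3 : (w * z)⁻¹ * (z * w) = ⁅z⁻¹, w⁻¹⁆ := by
              rw [commutatorElement_def]
              group
            rw [h3]
            exact (le_sup_right : (⊤ : Subgroup L).lowerCentralSeries (i + 1 + 1) ≤ _) h2
        have h4 := h1 hg
        rw [Subgroup.mem_comap, Subgroup.mem_center_iff] at h4
        have h5 := h4 (QuotientGroup.mk' _ y)
        rw [← QuotientGroup.eq_one_iff, commutatorElement_def]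
        have h6 : QuotientGroup.mk' (N ⊔ (⊤ : Subgroup L).lowerCentralSeries (i + 1 + 1))
            (y * g * y⁻¹ * g⁻¹) = 1 := by
          rw [map_mul, map_mul, map_mul, map_inv, map_inv, h5]
          group
        exact h6
  rcases Nat.eq_zero_or_pos c with h | h
  · subst h
    have h1 : commutator L ≤ N := le_top.trans hc
    rwa [sup_eq_left.2 h1] at hfg
  · obtain ⟨i, rfl⟩ : ∃ i, c = i + 1 := ⟨c - 1, by omega⟩
    have h1 := key i
    rwa [sup_eq_left.2 hc] at h1

end Pool.Agent.Helper49.RO
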