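import Pool.Agent.Results.MP_d69e80_al.NotFGByNilpotent

/-!
# The theorem `NotFGByNilpotent` contains its earlier versions (`H = Q`)
-/

namespace Pool.Agent.Helper49.RO

open Pointwise Filter Topology

/-- The version without a subgroup of finite index. -/
theorem contains_top {Γ : Type*} [Group Γ] [DecidableEq Γ] (S : Finset Γ) (hS : S.Nonempty)
    {Q : Type*} [Group Q] (f : Subgroup.closure (S : Set Γ) →* Q) (hf : Function.Surjective f)
    (N : Subgroup Q) [hN : N.Normal] (hnil : Group.IsNilpotent (Q ⧸ N)) (hfg : ¬ N.FG) :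
    ∃ ρ : ℝ, Tendsto (fun n : ℕ => Real.log ((S ^ n).card : ℝ) / n) atTop (𝓝 ρ) ∧
      Real.log 2 / 3 ≤ ρ := by
  let e : (⊤ : Subgroup Q) ≃* Q := Subgroup.topEquiv
  let N' : Subgroup (⊤ : Subgroup Q) := N.comap e.toMonoidHom
  have hN' : N'.Normal := hN.comap _
  have h1 : N'.map e.toMonoidHom = N :=
    Subgroup.map_comap_eq_self_of_surjective e.surjective N
  have hnil' : Group.IsNilpotent ((⊤ : Subgroup Q) ⧸ N') := by
    have φ : (⊤ : Subgroup Q) ⧸ N' ≃* Q ⧸ N := QuotientGroup.congr N' N e h1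
    exact Group.nilpotent_of_mulEquiv φ.symm
  have hfg' : ¬ N'.FG := by
    intro h
    apply hfg
    obtain ⟨X, hX⟩ := h
    classical
    refine ⟨X.image e, ?_⟩
    rw [Finset.coe_image, ← h1, ← hX, MonoidHom.map_closure]
    rfl
  have h := Pool.Agent.Results.MP_d69e80_al.NotFGByNilpotent.result S hS f hf ⊤ 1 one_pos
    Subgroup.index_top N' hnil' hfg'
  norm_num at h
  exact h

/-- The captured version of 2 December, word for word. -/
theorem contains_old {Γ : Type*} [Group Γ] [DecidableEq Γ] (S : Finset Γ) (hS : S.Nonempty)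
    {Q : Type*} [Group Q] (f : Subgroup.closure (S : Set Γ) →* Q) (hf : Function.Surjective f)
    (N : Subgroup Q) [hN : N.Normal] (c : ℕ)
    (hc : (⊤ : Subgroup Q).lowerCentralSeries c ≤ N) (hfg : ¬ N.FG) :
    ∃ ρ : ℝ, Tendsto (fun n : ℕ => Real.log ((S ^ n).card : ℝ) / n) atTop (𝓝 ρ) ∧
      Real.log 2 / 3 ^ c ≤ ρ := by
  have hnil : Group.IsNilpotent (Q ⧸ N) := by
    rw [Subgroup.nilpotent_iff_lowerCentralSeries]
    refine ⟨c, ?_⟩
    have h1 := Subgroup.map_lowerCentralSeries (⊤ : Subgroup Q) (QuotientGroup.mk' N) c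
    rw [Subgroup.map_top_of_surjective _ (QuotientGroup.mk'_surjective N)] at h1
    rw [← h1, Subgroup.map_eq_bot_iff, QuotientGroup.ker_mk']
    exact hc
  obtain ⟨ρ, h1, h2⟩ := contains_top S hS f hf N hnil hfg
  refine ⟨ρ, h1, le_trans ?_ h2⟩
  have hlog : 0 < Real.log 2 := Real.log_pos (by norm_num)
  rcases Nat.eq_zero_or_pos c with h0 | h0
  · exfalso
    subst h0
    apply hfg
    have hN1 : N = ⊤ := top_le_iff.1 hc
    have hcl : Group.FG (Subgroup.closure (S : Set Γ)) :=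
      (Group.fg_iff_subgroup_fg _).2 ⟨S, rfl⟩
    have hQ : Group.FG Q := Group.fg_of_surjective hf
    rw [hN1]
    exact hQ.out
  · apply div_le_div_of_nonneg_left hlog.le (by norm_num)
    calc (3 : ℝ) = 3 ^ 1 := by norm_num
      _ ≤ 3 ^ c := pow_le_pow_right₀ (by norm_num) h0

end Pool.Agent.Helper49.RO
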