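import Pool.Agent.Helper98.TL.Schreier
import Pool.Agent.Helper11.Gap3.Final
import Pool.Agent.Helper49.RO.B2

/-!
# Growth rates and subgroups of finite index, for sets which are not symmetric
-/

namespace Pool.Agent.Helper49.RO

open Pointwise Filter Topology

/-- The image of `S` in a quotient of the group generated by `S`. -/
theorem exists_image {Γ : Type*} [Group Γ] [DecidableEq Γ] (S : Finset Γ) (hne : S.Nonempty)
    (G : Subgroup Γ) (hG : G = Subgroup.closure (S : Set Γ))
    {Q : Type*} [Group Q] [DecidableEq Q] (f : G →* Q) (hf : Function.Surjective f) :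
    ∃ (T : Finset Q) (ρ σ : ℝ), T.Nonempty ∧ Subgroup.closure (T : Set Q) = ⊤ ∧
      Tendsto (fun n : ℕ => Real.log ((S ^ n).card : ℝ) / n) atTop (𝓝 ρ) ∧
      Tendsto (fun n : ℕ => Real.log ((T ^ n).card : ℝ) / n) atTop (𝓝 σ) ∧ σ ≤ ρ := by
  classical
  obtain ⟨ρ, hρ⟩ := Pool.Agent.Helper2.Gap.exists_rate S hne
  have hmem : ∀ s ∈ S, s ∈ G := fun s hs => by
    rw [hG]; exact Subgroup.subset_closure hs
  let S' : Finset G := S.attach.image (fun s => ⟨s.1, hmem s.1 s.2⟩)
  have hmap : S'.image (G.subtype) = S := by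
    ext x
    simp only [S', Finset.mem_image, Finset.mem_attach, true_and, Subtype.exists]
    constructor
    · rintro ⟨a, _, ⟨b, hb, hab⟩, rfl⟩
      have hba : b = a := congrArg Subtype.val hab
      subst hba
      exact hb
    · intro hx
      exact ⟨x, hmem x hx, ⟨x, hx, rfl⟩, rfl⟩
  have hcard : ∀ n, (S' ^ n).card = (S ^ n).card := by
    intro n
    rw [← hmap, ← Finset.image_pow, Finset.card_image_of_injective _ G.subtype_injective]
  have htop : Subgroup.closure (S' : Set G) = ⊤ := by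
    apply Subgroup.map_injective G.subtype_injective
    rw [MonoidHom.map_closure, ← Finset.coe_image, hmap, ← MonoidHom.range_eq_map,
      Subgroup.range_subtype, hG]
  have hne' : S'.Nonempty := by
    obtain ⟨s, hs⟩ := hne
    exact ⟨⟨s, hmem s hs⟩, Finset.mem_image.2 ⟨⟨s, hs⟩, Finset.mem_attach _ _, rfl⟩⟩
  have hneT : (S'.image f).Nonempty := hne'.image f
  have htopT : Subgroup.closure ((S'.image f : Finset Q) : Set Q) = ⊤ := by
    rw [Finset.coe_image, ← MonoidHom.map_closure, htop, ← MonoidHom.range_eq_map,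
      MonoidHom.range_eq_top.2 hf]
  obtain ⟨σ, hσ⟩ := Pool.Agent.Helper2.Gap.exists_rate (S'.image f) hneT
  refine ⟨S'.image f, ρ, σ, hneT, htopT, hρ, hσ, ?_⟩
  refine le_of_tendsto_of_tendsto' hσ hρ ?_
  intro n
  apply div_le_div_of_nonneg_right _ (Nat.cast_nonneg _)
  apply Real.log_le_log
  · exact_mod_cast (hneT.pow (n := n)).card_pos
  · rw [← hcard, ← Finset.image_pow]
    exact_mod_cast Finset.card_image_le

/-- Elements of `H` which are positive words of length between `1` and `s`. -/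
def posW {Q : Type*} [Group Q] [DecidableEq Q] (T : Finset Q) (H : Subgroup Q) (s : ℕ) : Set H :=
  {g | ∃ l, 1 ≤ l ∧ l ≤ s ∧ (g : Q) ∈ T ^ l}

theorem posW_finite {Q : Type*} [Group Q] [DecidableEq Q] (T : Finset Q) (H : Subgroup Q) (s : ℕ) :
    (posW T H s).Finite := by
  apply Set.Finite.of_finite_image (f := fun g : H => (g : Q)) _ Subtype.val_injective.injOn
  apply Set.Finite.subset ((Finset.range (s + 1)).biUnion (fun l => T ^ l)).finite_toSet
  rintro _ ⟨g, ⟨l, _, hl, hg⟩, rfl⟩
  rw [Finset.mem_coe, Finset.mem_biUnion]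
  exact ⟨l, Finset.mem_range.2 (by omega), hg⟩

theorem closure_posW {Q : Type*} [Group Q] [DecidableEq Q] (T : Finset Q)
    (hT : Subgroup.closure (T : Set Q) = ⊤) (H : Subgroup Q) [H.FiniteIndex] :
    Subgroup.closure (posW T H (2 * H.index - 1)) = ⊤ := by
  apply Subgroup.map_injective H.subtype_injective
  rw [MonoidHom.map_closure, ← MonoidHom.range_eq_map, Subgroup.range_subtype]
  conv_rhs => rw [← Pool.Agent.Helper98.TL.schreier_positive T hT H]
  congr 1
  ext g
  constructor
  · rintro ⟨g, ⟨l, h1, h2, h3⟩, rfl⟩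
    exact ⟨g.2, l, h1, h2, h3⟩
  · rintro ⟨hg, l, h1, h2, h3⟩
    exact ⟨⟨g, hg⟩, ⟨l, h1, h2, h3⟩, rfl⟩

/-- Comparison of the rates. -/
theorem rate_posW {Q : Type*} [Group Q] [DecidableEq Q] (T : Finset Q) (hT : T.Nonempty)
    (H : Subgroup Q) (s : ℕ) (X : Finset H) (hX : (X : Set H) ⊆ posW T H s) (hne : X.Nonempty)
    {σ ρ : ℝ} (hσ : Tendsto (fun n : ℕ => Real.log ((X ^ n).card : ℝ) / n) atTop (𝓝 σ))
    (hρ : Tendsto (fun n : ℕ => Real.log ((T ^ n).card : ℝ) / n) atTop (𝓝 ρ)) (hs : 0 < s) :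
    σ ≤ s * ρ := by
  classical
  have hmem : ∀ n : ℕ, ∀ g ∈ X ^ n, ∃ l, l ≤ s * n ∧ (g : Q) ∈ T ^ l := by
    intro n
    induction n with
    | zero =>
      intro g hg
      rw [pow_zero, Finset.mem_one] at hg
      exact ⟨0, by omega, by rw [hg, pow_zero]; exact Finset.mem_one.2 rfl⟩
    | succ n ih =>
      intro g hg
      rw [pow_succ, Finset.mem_mul] at hg
      obtain ⟨a, ha, b, hb, rfl⟩ := hg
      obtain ⟨l, hl, hl'⟩ := ih a ha
      obtain ⟨l', _, h2, h3⟩ := hX hb
      refine ⟨l + l', by rw [Nat.mul_succ]; omega, ?_⟩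
      rw [pow_add, Subgroup.coe_mul]
      exact Finset.mul_mem_mul hl' h3
  have hmono : ∀ l m : ℕ, l ≤ m → (T ^ l).card ≤ (T ^ m).card := by
    intro l m hlm
    obtain ⟨k, rfl⟩ := Nat.exists_eq_add_of_le hlm
    rw [pow_add]
    exact Finset.card_le_card_mul_right (hT.pow)
  have hcard : ∀ n : ℕ, (X ^ n).card ≤ (s * n + 1) * (T ^ (s * n)).card := by
    intro n
    calc (X ^ n).card = ((X ^ n).image (fun g : H => (g : Q))).card :=
          (Finset.card_image_of_injective _ Subtype.val_injective).symm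
      _ ≤ ((Finset.range (s * n + 1)).biUnion (fun l => T ^ l)).card := by
          apply Finset.card_le_card
          intro g hg
          rw [Finset.mem_image] at hg
          obtain ⟨h, hh, rfl⟩ := hg
          obtain ⟨l, hl, hl'⟩ := hmem n h hh
          rw [Finset.mem_biUnion]
          exact ⟨l, Finset.mem_range.2 (by omega), hl'⟩
      _ ≤ ∑ l ∈ Finset.range (s * n + 1), (T ^ l).card := Finset.card_biUnion_le
      _ ≤ ∑ l ∈ Finset.range (s * n + 1), (T ^ (s * n)).card := by
          apply Finset.sum_le_sum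
          intro l hl
          exact hmono _ _ (by have := Finset.mem_range.1 hl; omega)
      _ = (s * n + 1) * (T ^ (s * n)).card := by
          rw [Finset.sum_const, Finset.card_range, smul_eq_mul]
  have hs' : (0 : ℝ) < s := by exact_mod_cast hs
  have hsub : Tendsto (fun n : ℕ => s * n) atTop atTop :=
    tendsto_id.const_mul_atTop' hs
  have h1 : Tendsto (fun n : ℕ => (s : ℝ) * (Real.log ((T ^ (s * n)).card : ℝ) / ((s * n : ℕ) : ℝ)))
      atTop (𝓝 (s * ρ)) := (hρ.comp hsub).const_mul _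
  have h2 : Tendsto (fun n : ℕ => (s : ℝ) * (Real.log ((s * n : ℕ) + 1 : ℝ) / ((s * n : ℕ) : ℝ)))
      atTop (𝓝 (s * 0)) := by
    have h3 : Tendsto (fun m : ℕ => Real.log ((m : ℝ) + 1) / (m : ℝ)) atTop (𝓝 0) := by
      have h4 : Tendsto (fun x : ℝ => Real.log x / x) atTop (𝓝 0) := by
        have := Real.isLittleO_log_id_atTop.tendsto_div_nhds_zero
        simpa using this
      have h5 : Tendsto (fun m : ℕ => (m : ℝ) + 1) atTop atTop :=
        tendsto_atTop_add_const_right _ _ tendsto_natCast_atTop_atTop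
      have h6 := h4.comp h5
      have h7 : Tendsto (fun m : ℕ => ((m : ℝ) + 1) / (m : ℝ)) atTop (𝓝 1) := by
        have h8 : Tendsto (fun m : ℕ => 1 + 1 / (m : ℝ)) atTop (𝓝 (1 + 0)) :=
          tendsto_const_nhds.add tendsto_one_div_atTop_nhds_zero_nat
        rw [add_zero] at h8
        refine h8.congr' ?_
        filter_upwards [eventually_gt_atTop 0] with m hm
        have hm' : (m : ℝ) ≠ 0 := by exact_mod_cast hm.ne'
        field_simp
      have h9 := h6.mul h7
      rw [zero_mul] at h9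
      refine h9.congr' ?_
      filter_upwards [eventually_gt_atTop 0] with m hm
      have hm' : (m : ℝ) ≠ 0 := by exact_mod_cast hm.ne'
      have hm'' : (m : ℝ) + 1 ≠ 0 := by positivity
      simp only [Function.comp_apply]
      field_simp
    exact (h3.comp hsub).const_mul _
  have h3 := h1.add h2
  rw [mul_zero, add_zero] at h3
  refine le_of_tendsto_of_tendsto hσ h3 ?_
  filter_upwards [eventually_gt_atTop 0] with n hn
  have hn' : (0 : ℝ) < n := by exact_mod_cast hn
  have hX0 : (0 : ℝ) < ((X ^ n).card : ℝ) := by exact_mod_cast (hne.pow (n := n)).card_pos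
  have hT0 : (0 : ℝ) < ((T ^ (s * n)).card : ℝ) := by
    exact_mod_cast (hT.pow (n := s * n)).card_pos
  have h4 : Real.log ((X ^ n).card : ℝ) ≤
      Real.log ((s * n : ℕ) + 1 : ℝ) + Real.log ((T ^ (s * n)).card : ℝ) := by
    rw [← Real.log_mul (by positivity) hT0.ne']
    apply Real.log_le_log hX0
    exact_mod_cast hcard n
  have h5 : (s : ℝ) * (Real.log ((T ^ (s * n)).card : ℝ) / ((s * n : ℕ) : ℝ)) +
      (s : ℝ) * (Real.log ((s * n : ℕ) + 1 : ℝ) / ((s * n : ℕ) : ℝ)) =
      (Real.log ((s * n : ℕ) + 1 : ℝ) + Real.log ((T ^ (s * n)).card : ℝ)) / n := by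
    push_cast
    field_simp
    ring
  rw [h5]
  exact div_le_div_of_nonneg_right h4 hn'.le

/-- The growth gap, with a subgroup of finite index. -/
theorem main_fi {Γ : Type*} [Group Γ] [DecidableEq Γ] (S : Finset Γ) (hS : S.Nonempty)
    {Q : Type*} [Group Q] (f : Subgroup.closure (S : Set Γ) →* Q) (hf : Function.Surjective f)
    (H : Subgroup Q) [H.FiniteIndex] (N : Subgroup H) [N.Normal]
    (hnil : Group.IsNilpotent (H ⧸ N)) (hfg : ¬ N.FG) :
    ∃ ρ : ℝ, Tendsto (fun n : ℕ => Real.log ((S ^ n).card : ℝ) / n) atTop (𝓝 ρ) ∧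
      Real.log 2 / (3 * (2 * H.index - 1)) ≤ ρ := by
  classical
  obtain ⟨T, ρ, τ, hT, htop, hρ, hτ, hle⟩ := exists_image S hS _ rfl f hf
  refine ⟨ρ, hρ, ?_⟩
  have hidx : 0 < H.index := Nat.pos_of_ne_zero Subgroup.FiniteIndex.index_ne_zero
  set s := 2 * H.index - 1 with hs
  have hs0 : 0 < s := by omega
  have hsr : (2 * (H.index : ℝ) - 1) = (s : ℝ) := by
    rw [hs, Nat.cast_sub (by omega)]
    push_cast
    ring
  let X : Finset H := (posW_finite T H s).toFinset
  have hXs : (X : Set H) = posW T H s := (posW_finite T H s).coe_toFinset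
  have hXtop : Subgroup.closure (X : Set H) = ⊤ := by
    rw [hXs, hs]
    exact closure_posW T htop H
  have hXne : X.Nonempty := by
    by_contra hcon
    rw [Finset.not_nonempty_iff_eq_empty] at hcon
    rw [hcon, Finset.coe_empty, Subgroup.closure_empty] at hXtop
    apply hfg
    have : N = ⊥ := by
      rw [eq_bot_iff, hXtop]
      exact le_top
    rw [this]
    exact Subgroup.FG.bot
  obtain ⟨c, hc⟩ := Subgroup.nilpotent_iff_lowerCentralSeries.1 hnil
  have hc' : (⊤ : Subgroup H).lowerCentralSeries c ≤ N := by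
    have h1 := Subgroup.map_lowerCentralSeries (⊤ : Subgroup H) (QuotientGroup.mk' N) c
    rw [Subgroup.map_top_of_surjective _ (QuotientGroup.mk'_surjective N), hc,
      Subgroup.map_eq_bot_iff, QuotientGroup.ker_mk'] at h1
    exact h1
  obtain ⟨σ, hσ⟩ := Pool.Agent.Helper2.Gap.exists_rate X hXne
  have hσ2 : Real.log 2 / 3 ≤ σ := by
    by_contra hlt
    push Not at hlt
    have hM : (N ⊔ commutator H).FG := by
      refine Pool.Agent.Helper11.Gap3.main_top hXtop hσ (c := 1) ?_ inferInstance le_sup_right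
      rwa [pow_one]
    exact hfg (fg_of_nilpotent_quotient H N c hc' hM)
  have h1 : σ ≤ s * τ := rate_posW T hT H s X hXs.le hXne hσ hτ hs0
  have hsr0 : (0 : ℝ) < s := by exact_mod_cast hs0
  rw [hsr]
  have h2 : Real.log 2 / 3 ≤ s * ρ := hσ2.trans (h1.trans (mul_le_mul_of_nonneg_left hle hsr0.le))
  rw [div_le_iff₀ (by positivity)]
  have h3 : Real.log 2 ≤ 3 * (s * ρ) := by
    rw [div_le_iff₀ (by norm_num)] at h2
    linarith
  calc Real.log 2 ≤ 3 * (s * ρ) := h3
    _ = ρ * (3 * s) := by ring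

end Pool.Agent.Helper49.RO
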